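import Mathlib

set_option autoImplicit false
open Set Function Topology Filter TopologicalSpace

namespace Pool.Agent.H.MP_2e0873

lemma fib {ι α : Type} [Countable α] {I : Set ι} (hI : ¬ I.Countable) (c : ι → α) :
    ∃ n, ¬ {i ∈ I | c i = n}.Countable := by
  by_contra h
  push Not at h
  exact hI ((countable_iUnion h).mono fun i hi => mem_iUnion.2 ⟨c i, And.intro hi rfl⟩)

lemma sun {α : Type} {I : Set α} (hI : I.Infinite) (F s : α → Finset α) {n : ℕ}
    (hF : ∀ i ∈ I, (F i).card = n) : ∃ g : ℕ → α, (∀ k, g k ∈ I) ∧ Pairwise fun k m =>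
      ∀ a ∈ F (g k), a ∈ F (g m) → a ≠ g m ∧ (a ∈ s (g m) → a ∈ s (g k)) := by
  classical
  have := hI.cofinite_inf_principal_neBot
  let V := Ultrafilter.of (cofinite ⊓ 𝓟 I)
  have v1 : ∀ᶠ i in V, i ∈ I := Ultrafilter.of_le _ (mem_inf_of_right (mem_principal_self _))
  have v2 : (V : Filter α) ≤ cofinite := (Ultrafilter.of_le _).trans inf_le_left
  let R := {a | ∀ᶠ i in V, a ∈ F i}
  have hR : R.Finite := by
    by_contra h
    obtain ⟨t, t1, t2⟩ := Set.Infinite.exists_subset_card_eq h (n + 1)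
    obtain ⟨i, i1, i2⟩ := (v1.and ((eventually_all_finset t).2 fun a ha => t1 ha)).exists
    have := Finset.card_le_card (show t ⊆ F i from i2)
    rw [hF i i1] at this
    omega
  have : Std.Symm fun i j => ∀ a ∈ F i, a ∈ F j → a ∈ R := ⟨fun i j h a h1 h2 => h a h2 h1⟩
  obtain ⟨g, g1, g2⟩ := exists_seq_of_forall_finset_exists' (fun i => i ∈ I ∧ i ∉ R ∧
    ∀ a ∈ R, (a ∈ s i ↔ ∀ᶠ j in V, a ∈ s j)) (fun i j => ∀ a ∈ F i, a ∈ F j → a ∈ R) fun t _ =>
      ((v1.and ((hR.eventually_cofinite_notMem.filter_mono v2).and ((eventually_all_finite hR).2 fun a _ => by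
        by_cases e : ∀ᶠ j in V, a ∈ s j
        · exact e.mono fun i hi => iff_of_true hi e
        · exact (Ultrafilter.eventually_not.2 e).mono fun i hi => iff_of_false hi e))).and
      ((eventually_all_finset t).2 fun i _ => (eventually_all_finset (F i)).2 fun a _ => by
        by_cases e : a ∈ R
        · exact .of_forall fun _ _ => e
        · exact (Ultrafilter.eventually_not.2 e).mono fun j hj h => (hj h).elim)).exists
  exact ⟨g, fun k => (g1 k).1, fun k m h a h1 h2 => ⟨fun e => (g1 m).2.1 (e ▸ g2 h a h1 h2),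
    fun e => ((g1 k).2.2 a (g2 h a h1 h2)).2 (((g1 m).2.2 a (g2 h a h1 h2)).1 e)⟩⟩

variable {T : Type} (E : T → T → Prop)

def X : Type := {x : Set T // ∀ A : Set T, A.Pairwise E → (x ∩ A).Finite}

def emb (x : X E) (A : {A : Set T // A.Pairwise E}) : WithDiscreteTopology (Set T) :=
  .toTopology _ (x.1 ∩ A.1)

instance : TopologicalSpace (X E) := induced (emb E) inferInstance

instance : T35Space (X E) := IsEmbedding.t35Space (f := emb E) ⟨⟨rfl⟩, fun x y h =>
  Subtype.ext (Set.ext fun a => by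
    simpa [emb] using Set.ext_iff.1 (congrArg (·.ofTopology) (congrFun h ⟨{a}, pairwise_singleton _ _⟩)) a)⟩

variable {E}

lemma tX {ι : Type} {l : Filter ι} {u : ι → X E} {x : X E} : Tendsto u l (𝓝 x) ↔
    ∀ A : Set T, A.Pairwise E → ∀ᶠ i in l, (u i).1 ∩ A = x.1 ∩ A := by
  rw [nhds_induced, tendsto_comap_iff, tendsto_pi_nhds, Subtype.forall]
  simp [emb]

def j (U : X E) (z : T → Bool) : X E :=
  ⟨{t ∈ U.1 | z t = true}, fun A hA => (U.2 A hA).subset (inter_subset_inter_left _ (sep_subset _ _))⟩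

lemma jc (U : X E) : Continuous (j U) := continuous_iff_continuousAt.2 fun z => tX.2 fun A hA =>
  ((eventually_all_finite (U.2 A hA)).2 fun t _ => ((continuous_apply t).tendsto z).eventually
    (p := (· = z t)) (by simp)).mono fun y hy => Set.ext fun t => and_congr_left fun h =>
      and_congr_right fun h' => by rw [hy t ⟨h', h⟩]

lemma unif (U : X E) {f : X E → ℝ} (hf : Continuous f) {ε : ℝ} (hε : 0 < ε) : ∃ F : Finset T,
    ∀ z y, (∀ t ∈ F, z t = y t) → |f (j U z) - f (j U y)| < ε := by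
  have c := hf.comp (jc U)
  obtain ⟨F, hF⟩ := (isClosed_le (continuous_const (y := ε)) ((c.comp continuous_fst).sub
    (c.comp continuous_snd)).abs).isCompact.elim_finite_subfamily_closed
    (fun t => {p | p.1 t = p.2 t}) (fun t => isClosed_eq (by fun_prop) (by fun_prop))
    (eq_empty_of_forall_notMem fun p hp => hε.not_ge (by
      simpa [show p.1 = p.2 from funext (mem_iInter.1 hp.2)] using hp.1))
  exact ⟨F, fun z y h => not_le.1 fun e => (hF.le ⟨e, mem_iInter₂.2 h⟩ : (z, y) ∈ ∅)⟩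

def fin (s : Finset T) : X E := ⟨s, fun _ _ => s.finite_toSet.inter_of_left _⟩

lemma dns : DenseRange (fin (E := E)) := fun x => by
  classical
  refine mem_closure_of_tendsto (b := atTop) (f := fun s : Finset T => fin (s.filter (· ∈ x.1)))
    (tX.2 fun A hA => (eventually_ge_atTop (x.2 A hA).toFinset).mono fun s hs => Set.ext fun t =>
      ⟨fun h => ⟨(Finset.mem_filter.1 h.1).2, h.2⟩, fun h => ⟨Finset.mem_filter.2
        ⟨hs (by simpa using h), h.1⟩, h.2⟩⟩) (.of_forall fun s => ⟨_, rfl⟩)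

variable (h1 : ∀ S : Set T, ¬ S.Countable → ∃ S' ⊆ S, ¬ S'.Countable ∧
  S'.Pairwise fun a b => ¬ E a b)
include h1

lemma thin {I : Set T} (hI : ¬ I.Countable) (s : T → Finset T) :
    ∃ I' ⊆ I, ¬ I'.Countable ∧ ∃ U : X E, ∀ i ∈ I', ↑(s i) ⊆ U.1 := by
  obtain ⟨n, hn⟩ := fib hI fun i => (s i).toList.length
  have : ∀ k, ∃ I' ⊆ {i ∈ I | (s i).toList.length = n}, ¬ I'.Countable ∧
      ∃ U : X E, ∀ i ∈ I', ∀ m < k, (s i).toList.getD m i ∈ U.1 := fun k => by
    induction k with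
    | zero => exact ⟨_, le_rfl, hn, fin ∅, by simp⟩
    | succ k ih =>
      obtain ⟨J, j1, j2, U, j3⟩ := ih
      obtain ⟨S, s1, s2⟩ : ∃ S : Set T, S.Pairwise (fun a b => ¬ E a b) ∧
          ¬ {i ∈ J | (s i).toList.getD k i ∈ S}.Countable := by
        by_cases h : ((fun i => (s i).toList.getD k i) '' J).Countable
        · by_contra hc
          push Not at hc
          exact j2 ((h.biUnion fun a _ => hc {a} (pairwise_singleton _ _)).mono fun i hi =>
            mem_iUnion₂.2 ⟨(s i).toList.getD k i, ⟨i, hi, rfl⟩, And.intro hi rfl⟩)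
        · obtain ⟨S, s1, s2, s3⟩ := h1 _ h
          exact ⟨S, s3, fun e => s2 ((e.image fun i => (s i).toList.getD k i).mono fun a ha => by
            obtain ⟨i, hi, rfl⟩ := s1 ha
            exact ⟨i, ⟨hi, ha⟩, rfl⟩)⟩
      refine ⟨_, (sep_subset _ _).trans j1, s2, ⟨U.1 ∪ S, fun A hA => ?_⟩, fun i hi m hm =>
        (Nat.lt_succ_iff.1 hm).lt_or_eq.elim (fun h => Or.inl (j3 i hi.1 m h))
          fun h => Or.inr (h ▸ hi.2)⟩
      rw [union_inter_distrib_right]
      exact (U.2 A hA).union (Set.Subsingleton.finite fun a ha b hb => by_contra fun h =>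
        s1 ha.1 hb.1 h (hA ha.2 hb.2 h))
  obtain ⟨J, j1, j2, U, j3⟩ := this n
  refine ⟨J, j1.trans (sep_subset _ _), j2, U, fun i hi a ha => ?_⟩
  obtain ⟨m, hm, rfl⟩ := List.getElem_of_mem (Finset.mem_toList.2 ha)
  exact List.getD_eq_getElem _ i hm ▸ j3 i hi m ((j1 hi).2 ▸ hm)

lemma act [DecidableEq T] {C : Set (X E → ℝ)} (c1 : ∀ f ∈ C, Continuous f) (c2 : IsCompact C) :
    {a | ∃ f ∈ C, ∃ s : Finset T, f (fin (insert a s)) ≠ f (fin s)}.Countable := by
  classical
  by_contra hc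
  have : ∀ a ∈ {a | ∃ f ∈ C, ∃ s : Finset T, f (fin (insert a s)) ≠ f (fin s)}, ∃ f ∈ C,
      ∃ (s : Finset T) (m : ℕ), 1 / ((m : ℝ) + 1) < |f (fin (insert a s)) - f (fin s)| :=
    fun a ⟨f, hf, s, h⟩ => ⟨f, hf, s, exists_nat_one_div_lt (abs_pos.2 (sub_ne_zero.2 h))⟩
  choose! f f1 s m f2 using this
  obtain ⟨n, hn⟩ := fib hc m
  obtain ⟨I, i1, i2, U, i3⟩ := thin h1 hn fun a => insert a (s a)
  have hε : 0 < 1 / ((n : ℝ) + 1) / 4 := by positivity
  choose! F hF using fun a (h : a ∈ I) => unif U (c1 _ (f1 a (i1 h).1)) hε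
  obtain ⟨k, hk⟩ := fib i2 fun a => (F a ∪ insert a (s a)).card
  obtain ⟨g, g1, g2⟩ := sun (fun h => hk (Finite.countable h)) (fun a => F a ∪ insert a (s a)) s
    fun i hi => hi.2
  let z : Set ℕ → T → Bool := fun J t => decide ((∃ i, t ∈ s (g i)) ∨ ∃ i ∈ J, t = g i)
  have z1 : ∀ J i, ∀ t ∈ F (g i), (z J t = true ↔ t ∈ s (g i) ∨ i ∈ J ∧ t = g i) := by
    refine fun J i t ht => decide_eq_true_iff.trans ⟨?_, Or.imp (⟨i, ·⟩) (⟨i, ·⟩)⟩
    rintro (⟨l, h⟩ | ⟨l, h, rfl⟩) <;> rcases eq_or_ne i l with rfl | e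
    · exact Or.inl h
    · exact Or.inl ((g2 e t (by simp [ht]) (by simp [h])).2 h)
    · exact Or.inr ⟨h, rfl⟩
    · exact ((g2 e _ (by simp [ht]) (by simp)).1 rfl).elim
  have z2 : ∀ a ∈ I, ∀ u ⊆ insert a (s a), fin u = j U fun t => decide (t ∈ u) := fun a h u hu =>
    Subtype.ext (Set.ext fun t => ⟨fun e => ⟨i3 a h (hu e), decide_eq_true (p := t ∈ u) e⟩,
      fun e => of_decide_eq_true (p := t ∈ u) e.2⟩)
  obtain ⟨φ, φ1, φ2⟩ := c2.ultrafilter_le_nhds ((hyperfilter ℕ).map fun i => f (g i))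
    (le_principal_iff.2 (mem_map.2 (univ_mem' fun i => f1 _ (i1 (g1 i).1).1)))
  have t : ∀ J, Tendsto (fun i => |f (g i) (j U (z J)) - f (g i) (j U (z ∅))|) (hyperfilter ℕ)
      (𝓝 |φ (j U (z J)) - φ (j U (z ∅))|) := fun J =>
    ((tendsto_pi_nhds.1 φ2 _).sub (tendsto_pi_nhds.1 φ2 _)).abs
  have t1 := ge_of_tendsto' (t univ) (b := 1 / ((n : ℝ) + 1) / 2) fun i => by
    have e := f2 _ (i1 (g1 i).1).1
    rw [(i1 (g1 i).1).2, z2 _ (g1 i).1 _ le_rfl, z2 _ (g1 i).1 _ (Finset.subset_insert _ _)] at e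
    have e1 := hF _ (g1 i).1 (z univ) (fun t => decide (t ∈ insert (g i) (s (g i)))) fun t ht =>
      Bool.eq_iff_iff.2 (by simp [z1 _ i t ht, or_comm])
    have e2 := hF _ (g1 i).1 (z ∅) (fun t => decide (t ∈ s (g i))) fun t ht =>
      Bool.eq_iff_iff.2 (by simp [z1 _ i t ht])
    rw [lt_abs] at e
    rw [abs_lt] at e1 e2
    rw [le_abs]
    exact e.imp (fun h => by linarith [e1.1, e2.2]) fun h => by linarith [e1.2, e2.1]
  have t2 : Tendsto (fun k => z (Iio k)) atTop (𝓝 (z univ)) := tendsto_pi_nhds.2 fun a =>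
    tendsto_const_nhds.congr' (by
      by_cases h : ∃ i, a = g i
      · obtain ⟨i, rfl⟩ := h
        exact (eventually_gt_atTop i).mono fun k hk => (decide_eq_true (Or.inr ⟨i, trivial, rfl⟩)).trans
          (decide_eq_true (Or.inr ⟨i, hk, rfl⟩)).symm
      · exact .of_forall fun k => by simp [z, not_exists.1 h])
  have t3 := le_of_tendsto' (((((c1 φ φ1).comp (jc U)).tendsto _).comp t2).sub_const
    (φ (j U (z ∅)))).abs (b := 1 / ((n : ℝ) + 1) / 4) fun k => le_of_tendsto (t (Iio k))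
      (Nat.hyperfilter_le_atTop ((eventually_ge_atTop k).mono fun i hi => (hF _ (g1 i).1 _ _
        fun t ht => Bool.eq_iff_iff.2 (by simp [z1 _ i t ht, hi.not_gt])).le))
  have := t1.trans t3
  linarith

lemma eb {C : Set (X E → ℝ)} (c1 : ∀ f ∈ C, Continuous f) (c2 : IsCompact C) :
    ∃ (V : Type) (_ : NormedAddCommGroup V) (_ : NormedSpace ℝ V) (_ : CompleteSpace V)
      (e : C → WeakSpace ℝ V), IsEmbedding e := by
  classical
  obtain ⟨σ, hσ⟩ := ((countable_ofPred_finite_subset (act h1 c1 c2)).preimage_of_injOn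
    (f := fun s : Finset T => (s : Set T)) Finset.coe_injective.injOn).exists_eq_range
      ⟨∅, by simp⟩
  let := metrizableSpaceMetric (ℕ → ℝ)
  have := isCompact_iff_compactSpace.1 c2
  have e := kuratowskiEmbedding.isometry (ℕ → ℝ)
  refine ⟨_, inferInstance, inferInstance, inferInstance, fun f => toWeakSpaceCLM ℝ _
    (kuratowskiEmbedding (ℕ → ℝ) fun n => f.1 (fin (σ n))), (Continuous.isClosedEmbedding
      ((toWeakSpaceCLM ℝ _).continuous.comp (e.continuous.comp (continuous_pi fun n =>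
        (continuous_apply _).comp continuous_subtype_val)))
      fun f g h => ?_).isEmbedding⟩
  replace h := congrFun (e.injective (toWeakSpaceCLM_bijective.1 h))
  have k : ∀ f ∈ C, ∀ s : Finset T, f (fin s) = f (fin (s.filter fun a => ∃ f ∈ C,
      ∃ s : Finset T, f (fin (insert a s)) ≠ f (fin s))) := fun f hf s => by
    have : ∀ u v : Finset T, (∀ a ∈ u, ¬ ∃ f ∈ C, ∃ s : Finset T,
        f (fin (insert a s)) ≠ f (fin s)) → f (fin (u ∪ v)) = f (fin v) := fun u v hu => by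
      induction u using Finset.induction_on with
      | empty => simp
      | insert a u _ ih =>
        rw [Finset.insert_union, ← ih fun b hb => hu b (Finset.mem_insert_of_mem hb)]
        exact not_not.1 fun e => hu a (Finset.mem_insert_self _ _) ⟨f, hf, _, e⟩
    rw [← this (s.filter _) (s.filter _) fun a ha => (Finset.mem_filter.1 ha).2, Finset.union_comm,
      Finset.filter_union_filter_not_eq]
  refine Subtype.ext (dns.equalizer (c1 _ f.2) (c1 _ g.2) (funext fun s => ?_))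
  obtain ⟨n, hn⟩ := (Set.ext_iff.1 hσ (s.filter fun a => ∃ f ∈ C, ∃ s : Finset T,
    f (fin (insert a s)) ≠ f (fin s))).1 ⟨Finset.finite_toSet _, fun a ha =>
      (Finset.mem_filter.1 ha).2⟩
  have e : f.1 (fin (σ n)) = g.1 (fin (σ n)) := h n
  exact (k _ f.2 s).trans ((hn ▸ e).trans (k _ g.2 s).symm)

end Pool.Agent.H.MP_2e0873
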