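import Pool.Agent.H.MP_2e0873.A

set_option autoImplicit false
open Set Function Topology Filter TopologicalSpace OnePoint

namespace Pool.Agent.H.MP_2e0873

section
variable {T : Type} (E : T → T → Prop)

def B : Set (T → Bool) := {A | {t | A t = true}.Pairwise E}

lemma Bc : IsClosed (B E) := by
  rw [show B E = ⋂ a, ⋂ b, {A | A a = true → A b = true → a ≠ b → E a b} from Set.ext fun A => by
    simp only [mem_iInter]
    exact ⟨fun h a b ha hb => h ha hb, fun h a ha b hb => h a b ha hb⟩]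
  have o : ∀ a, IsOpen {A : T → Bool | A a = true} := fun a =>
    (isOpen_discrete {true}).preimage (f := fun A : T → Bool => A a) (continuous_apply a)
  exact isClosed_iInter fun a => isClosed_iInter fun b => isClosed_imp (o a) (isClosed_imp (o b)
    isClosed_const)

lemma ne {V : Type} [NormedAddCommGroup V] [NormedSpace ℝ V] [Std.Symm E] (v : B E → V)
    (v1 : ∀ φ : StrongDual ℝ V, Continuous fun A => φ (v A)) (v2 : Injective v) :
    ∃ c : T → ℕ, ∀ g : ℕ → T, Injective g → (range g).Pairwise E → ∀ n, ∃ i, c (g i) ≠ n := by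
  classical
  have := isCompact_iff_compactSpace.1 (Bc E).isCompact
  have : ∀ a : T, ∃ (n : ℕ) (φ : ℕ → StrongDual ℝ V), (∀ i, ‖φ i‖ ≤ n) ∧ ∀ A A' : B E,
      A.1 a = true → A'.1 a = false → ∃ i < n, 1 ≤ |φ i (v A) - φ i (v A')| := fun a => by
    have c : ∀ b, IsClosed {A : B E | A.1 a = b} := fun b => isClosed_eq
      ((continuous_apply a).comp continuous_subtype_val) continuous_const
    obtain ⟨t, ht⟩ := ((c true).prod (c false)).isCompact.elim_finite_subcover
      (fun φ : StrongDual ℝ V => {p | 1 < |φ (v p.1) - φ (v p.2)|}) (fun φ => isOpen_lt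
        continuous_const (((v1 φ).comp continuous_fst).sub ((v1 φ).comp continuous_snd)).abs)
      fun p hp => by
        obtain ⟨φ, h⟩ := SeparatingDual.exists_separating_of_ne (R := ℝ) (v2.ne (a₁ := p.1)
          (a₂ := p.2) fun e => by simp [e] at hp)
        refine mem_iUnion.2 ⟨(2 / (φ (v p.1) - φ (v p.2))) • φ, ?_⟩
        simp [← mul_sub, ← abs_mul, sub_ne_zero.2 h]
    obtain ⟨n, hn⟩ := exists_nat_ge (∑ φ ∈ t, ‖φ‖)
    refine ⟨n + t.toList.length, fun i => t.toList.getD i 0, fun i => ?_, fun A A' h h' => ?_⟩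
    · dsimp only
      rcases lt_or_ge i t.toList.length with h | h
      · rw [List.getD_eq_getElem _ _ h]
        exact ((Finset.single_le_sum (fun _ _ => norm_nonneg _) (Finset.mem_toList.1
          (List.getElem_mem h))).trans hn).trans (by simp)
      · rw [List.getD_eq_default _ _ h, norm_zero]
        positivity
    · obtain ⟨φ, h1, h2⟩ := mem_iUnion₂.1 (ht (a := (A, A')) ⟨h, h'⟩)
      obtain ⟨i, hi, rfl⟩ := List.getElem_of_mem (Finset.mem_toList.2 h1)
      exact ⟨i, by omega, by simpa only [List.getD_eq_getElem _ _ hi] using le_of_lt h2⟩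
  choose c φ c1 c2 using this
  refine ⟨c, fun g g1 g2 n => by_contra fun hn => ?_⟩
  push Not at hn
  choose ψ _ hψ using fun i => (WeakDual.isCompact_closedBall (0 : StrongDual ℝ V)
    n).ultrafilter_le_nhds ((hyperfilter ℕ).map fun k => StrongDual.toWeakDual (φ (g k) i))
      (le_principal_iff.2 (mem_map.2 (univ_mem' fun k => by simpa [hn] using c1 (g k) i)))
  let P : Set ℕ → B E := fun J => ⟨fun t => decide (t ∈ g '' J), g2.mono fun t ht =>
    image_subset_range _ _ (of_decide_eq_true ht)⟩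
  have t1 : Tendsto (fun k => P (Iio k)) atTop (𝓝 (P univ)) := tendsto_subtype_rng.2
    (tendsto_pi_nhds.2 fun a => tendsto_const_nhds.congr' (by
      by_cases h : a ∈ range g
      · obtain ⟨i, rfl⟩ := h
        exact (eventually_gt_atTop i).mono fun k hk => by simp [P, g1.eq_iff, hk]
      · exact .of_forall fun k => (decide_eq_false (image_univ ▸ h)).trans
          (decide_eq_false fun e => h (image_subset_range _ _ e)).symm))
  have t2 := tendsto_finsetSum (Finset.range n) fun i _ => (((v1 (WeakDual.toStrongDual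
    (ψ i))).tendsto _).comp t1 |>.const_sub (ψ i (v (P univ)))).abs
  refine zero_lt_one.not_ge ((ge_of_tendsto' t2 fun k => ge_of_tendsto (tendsto_finsetSum
    (Finset.range n) fun i _ => ((((WeakDual.eval_continuous _).tendsto _).comp (hψ i)).sub
      (((WeakDual.eval_continuous _).tendsto _).comp (hψ i))).abs) (Nat.hyperfilter_le_atTop
        ((eventually_ge_atTop k).mono fun m hm => ?_))).trans (by simp))
  obtain ⟨i, hi, h⟩ := c2 (g m) (P univ) (P (Iio k)) (by simp [P]) (by simpa [P, g1.eq_iff])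
  exact h.trans (Finset.single_le_sum (f := fun i => |φ (g m) i (v (P univ)) -
    φ (g m) i (v (P (Iio k)))|) (fun _ _ => abs_nonneg _) (Finset.mem_range.2 (hn m ▸ hi)))

open Classical in
noncomputable def ph (A : T → Bool) (p : X E × OnePoint T) : ℝ :=
  p.2.elim 0 fun a => if a ∈ p.1.1 ∩ {t | A t = true} then 1 else 0

lemma phc : Continuous (ph E) := continuous_pi fun ⟨x, k⟩ => by
  classical
  induction k using OnePoint.rec with
  | infty => exact continuous_const
  | coe a => exact (continuous_of_discreteTopology (f := fun b : Bool =>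
      if a ∈ x.1 ∧ b = true then (1 : ℝ) else 0)).comp (continuous_apply a)

lemma phi : Injective (ph E) := fun A A' h => funext fun a => by
  have := congrFun h (fin {a}, a)
  cases e : A a <;> cases e' : A' a <;> simp_all [ph, fin]

lemma phx [TopologicalSpace T] [DiscreteTopology T] {A : T → Bool} (hA : A ∈ B E) :
    Continuous (ph E A) := continuous_iff_continuousAt.2 fun ⟨x, k⟩ => by
  classical
  refine tendsto_const_nhds.congr' ?_
  have e := tX.1 (tendsto_id (x := 𝓝 x)) _ hA
  rw [nhds_prod_eq]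
  induction k using OnePoint.rec with
  | infty =>
    refine mem_of_superset (prod_mem_prod e (((x.2 _ hA).image OnePoint.some).isClosed.isOpen_compl.mem_nhds
      (infty_notMem_image_coe))) fun ⟨y, k⟩ h => ?_
    induction k using OnePoint.rec with
    | infty => rfl
    | coe a => exact (if_neg fun h' => h.2 ⟨a, h.1.le h', rfl⟩).symm
  | coe a =>
    refine mem_of_superset (prod_mem_prod e ((isOpenEmbedding_coe.isOpenMap _
      (isOpen_discrete {a})).mem_nhds ⟨a, rfl, rfl⟩)) ?_
    rintro ⟨y, _⟩ ⟨h, _, rfl, rfl⟩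
    exact if_congr (Set.ext_iff.1 h _).symm rfl rfl
end

abbrev Ω : Type := (Cardinal.continuum.{0}).ord.ToType

abbrev N : Type := {p : Ω × (Ω → ℕ) // InjOn p.2 (Iio p.1) ∧ ∀ b, p.1 ≤ b → p.2 b = 0}

def lt (t u : N) : Prop := t.1.1 < u.1.1 ∧ EqOn t.1.2 u.1.2 (Iio t.1.1)

def R (t u : N) : Prop := lt t u ∨ lt u t

instance : Std.Symm R := ⟨fun _ _ => Or.symm⟩

lemma lt.trans {t u v : N} (h : lt t u) (h' : lt u v) : lt t v :=
  ⟨h.1.trans h'.1, fun _ e => (h.2 e).trans (h'.2 (e.trans h.1))⟩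

lemma cmp {t u : N} {f : Ω → ℕ} (h : EqOn t.1.2 f (Iio t.1.1)) (h' : EqOn u.1.2 f (Iio u.1.1))
    (e : t ≠ u) : R t u := by
  rcases lt_trichotomy t.1.1 u.1.1 with k | k | k
  · exact Or.inl ⟨k, fun _ e => (h e).trans (h' (e.trans k)).symm⟩
  · exact (e (Subtype.ext (Prod.ext k (funext fun b => (lt_or_ge b t.1.1).elim (fun e =>
      (h e).trans (h' (e.trans_eq k)).symm) fun e => (t.2.2 b e).trans
        (u.2.2 b (k ▸ e)).symm)))).elim
  · exact Or.inr ⟨k, fun _ e => (h' e).trans (h (e.trans k)).symm⟩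

lemma anti (S : Set N) (hS : ¬ S.Countable) : ∃ S' ⊆ S, ¬ S'.Countable ∧
    S'.Pairwise fun a b => ¬ R a b := by
  by_cases h : {t ∈ S | ∃ u ∈ S, lt t u}.Countable
  · exact ⟨{t ∈ S | ¬ ∃ u ∈ S, lt t u}, sep_subset _ _, fun e => hS ((h.union e).mono
      fun t ht => (em _).imp (And.intro ht) (And.intro ht)), fun a ha b hb _ e =>
        e.elim (fun e => ha.2 ⟨b, hb.1, e⟩) fun e => hb.2 ⟨a, ha.1, e⟩⟩
  have : Nonempty N := (nonempty_iff_ne_empty.2 fun e : S = ∅ => hS
    (e ▸ countable_empty)).to_type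
  choose! s s1 s2 using fun (t : N) (ht : ∃ u ∈ S, lt t u) => (InvImage.wf (fun u : N => u.1.1)
    wellFounded_lt).has_min {u | u ∈ S ∧ lt t u} ht
  obtain ⟨n, hn⟩ := fib h fun t => (s t).1.2 t.1.1
  have k : ∀ a ∈ {i ∈ {t ∈ S | ∃ u ∈ S, lt t u} | (s i).1.2 i.1.1 = n},
      ∀ b ∈ {i ∈ {t ∈ S | ∃ u ∈ S, lt t u} | (s i).1.2 i.1.1 = n},
      s a = s b ∨ lt (s a) (s b) → a = b := fun a ha b hb e => by_contra fun hab => by
    have a1 := (s1 a ha.1.2).2
    have b1 := (s1 b hb.1.2).2
    have e1 : lt a (s b) := e.elim (· ▸ a1) a1.trans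
    rcases cmp e1.2 b1.2 hab with k | k
    · exact k.1.ne ((s b).2.1 e1.1 b1.1 ((e.elim (fun e => e ▸ ha.2) fun e =>
        (e.2 a1.1).symm.trans ha.2).trans hb.2.symm))
    · exact s2 b hb.1.2 a ⟨ha.1.1, k⟩ e1.1
  refine ⟨s '' _, image_subset_iff.2 fun t ht => (s1 t ht.1.2).1, fun e => hn
    (countable_of_injective_of_countable_image (fun a ha b hb e => k a ha b hb (Or.inl e)) e), ?_⟩
  rintro _ ⟨a, ha, rfl⟩ _ ⟨b, hb, rfl⟩ h (e | e)
  · exact h (congrArg s (k a ha b hb (Or.inr e)))
  · exact h (congrArg s (k b hb a ha (Or.inr e))).symm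

lemma nsp (c : N → ℕ) : ∃ g : ℕ → N, Injective g ∧ (range g).Pairwise R ∧ ∃ n, ∀ i, c (g i) = n := by
  classical
  by_contra hc
  have f : ∀ t, {u | lt u t ∧ c u = c t}.Finite := fun t => by_contra fun h =>
    let g := Set.Infinite.natEmbedding _ h
    hc ⟨fun i => g i, Subtype.val_injective.comp g.injective, by
      rintro _ ⟨i, rfl⟩ _ ⟨k, rfl⟩ e
      exact cmp (g i).2.1.2 (g k).2.1.2 e, c t, fun i => (g i).2.2⟩
  let d : N → ℕ := fun t => Nat.pair (c t) {u | lt u t ∧ c u = c t}.ncard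
  have hd : ∀ t u, lt t u → d t ≠ d u := fun t u h e => by
    obtain ⟨e1, e2⟩ := Nat.pair_eq_pair.1 e
    exact (ncard_lt_ncard ⟨fun v hv => And.intro (hv.1.trans h) (hv.2.trans e1), fun k =>
      (k (a := t) ⟨h, e1⟩).1.1.false⟩ (f u)).ne e2
  let r : Ω → (Ω → ℕ) → Ω → ℕ := fun a s b => if b < a then s b else 0
  let s : Ω → ℕ := wellFounded_lt.fix fun a ih =>
    if h : InjOn (fun b => if h : b < a then ih b h else 0) (Iio a) then
      d ⟨(a, _), h, fun b hb => dif_neg hb.not_gt⟩ else 0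
  have hs : ∀ a (h : InjOn (r a s) (Iio a)),
      s a = d ⟨(a, r a s), h, fun b hb => if_neg hb.not_gt⟩ := fun a h =>
    (wellFounded_lt.fix_eq _ a).trans (dif_pos h)
  have i0 : ∀ a, (∀ b < a, InjOn (r b s) (Iio b)) → ∀ x < a, ∀ y < a, x < y → s x ≠ s y :=
    fun a h x hx y hy e => by
      rw [hs x (h x hx), hs y (h y hy)]
      exact hd _ _ ⟨e, fun b hb => (if_pos hb).trans (if_pos (lt_trans hb e)).symm⟩
  have i1 : ∀ a, InjOn (r a s) (Iio a) := fun a => by
    induction a using WellFoundedLT.induction with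
    | ind a ih =>
      intro x hx y hy e
      replace e := (if_pos hx).symm.trans (e.trans (if_pos hy))
      by_contra h
      exact (lt_or_gt_of_ne h).elim (fun h => i0 a ih x hx y hy h e)
        fun h => i0 a ih y hy x hx h e.symm
  have := Cardinal.mk_le_aleph0_iff.2 (Injective.countable (f := s) (.of_lt_imp_ne fun x y e => by
    rw [hs x (i1 x), hs y (i1 y)]
    exact hd _ _ ⟨e, fun b hb => (if_pos hb).trans (if_pos (lt_trans hb e)).symm⟩))
  exact Cardinal.aleph0_lt_continuum.not_ge (by simpa using this)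

end Pool.Agent.H.MP_2e0873
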